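import Pool.Agent.Run7.h202.RP.Stm

/-! helper569: piece STAR of project RP (helper202). -/

set_option autoImplicit false

namespace Pool.Agent.Run7.h569.RP

open Finset Filter Pool.Agent.H234RC Pool.Agent.TH953.RC Pool.Agent.Y395.RS Pool.Agent.Y395.RW
open Pool.Agent.Run7.h202.RP

theorem choose_le' (n r : ℕ) : n.choose r ≤ n ^ r := by
  refine le_trans ?_ (Nat.descFactorial_le_pow n r)
  rw [Nat.descFactorial_eq_factorial_mul_choose]
  exact Nat.le_mul_of_pos_left _ (Nat.factorial_pos r)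

theorem count (n k : ℕ) : n * n.choose k ≤ n ^ (k + 1) := by
  rw [pow_succ']
  exact Nat.mul_le_mul_left _ (choose_le' n k)

set_option linter.unusedSectionVars false

section

variable {V : Type} [Fintype V] [DecidableEq V]

/-- the pairs `x w` -/
def AA (x : V) (W : Finset V) : Finset (Sym2 V) := W.image (fun w => s(x, w))

/-- the pairs between `W` and the rest without `x` -/
def II (x : V) (W : Finset V) : Finset (Sym2 V) :=
  (W ×ˢ (univ \ insert x W)).image (fun q => s(q.1, q.2))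

theorem mem_rest {x b : V} {W : Finset V} (h : b ∈ univ \ insert x W) : b ≠ x ∧ b ∉ W := by
  rw [Finset.mem_sdiff, Finset.mem_insert, not_or] at h
  exact h.2

theorem card_AA (x : V) (W : Finset V) : (AA x W).card = W.card := by
  unfold AA
  refine card_image_of_injective _ fun a b h => ?_
  exact Sym2.congr_right.1 h

theorem card_II (x : V) (W : Finset V) (hx : x ∉ W) :
    (II x W).card = W.card * (Fintype.card V - (W.card + 1)) := by
  unfold II
  rw [card_image_of_injOn, card_product, card_sdiff_of_subset (subset_univ _), card_univ,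
    card_insert_of_notMem hx]
  rintro ⟨a, b⟩ hab ⟨c, d⟩ hcd h
  rw [Finset.mem_coe, Finset.mem_product] at hab hcd
  have hd := mem_rest hcd.2
  simp only [Sym2.eq_iff] at h
  rcases h with ⟨h1, h2⟩ | ⟨h1, h2⟩
  · simp [h1, h2]
  · exact absurd (h1 ▸ hab.1) hd.2

theorem disj_AI (x : V) (W : Finset V) (hx : x ∉ W) : Disjoint (AA x W) (II x W) := by
  rw [disjoint_left]
  intro e h1 h2
  unfold AA at h1
  unfold II at h2
  rw [mem_image] at h1 h2
  obtain ⟨w, hw, rfl⟩ := h1
  obtain ⟨⟨a, b⟩, hab, h⟩ := h2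
  rw [Finset.mem_product] at hab
  have hb := mem_rest hab.2
  simp only [Sym2.eq_iff] at h
  rcases h with ⟨h1, h2⟩ | ⟨h1, h2⟩
  · exact hx (h1 ▸ hab.1)
  · exact hb.1 h2

theorem AA_sub (x : V) (W : Finset V) (hx : x ∉ W) : AA x W ⊆ pairs V := by
  intro e h
  unfold AA at h
  rw [mem_image] at h
  obtain ⟨w, hw, rfl⟩ := h
  rw [mem_pairs]
  exact fun h => hx (h ▸ hw)

theorem II_sub (x : V) (W : Finset V) : II x W ⊆ pairs V := by
  intro e h
  unfold II at h
  rw [mem_image] at h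
  obtain ⟨⟨a, b⟩, hab, rfl⟩ := h
  rw [Finset.mem_product] at hab
  rw [mem_pairs]
  exact fun h => (mem_rest hab.2).2 (h ▸ hab.1)

theorem card_FI (F : Finset (Sym2 V)) (hF : F ⊆ pairs V) (x : V) (W : Finset V)
    (hL : ∀ w ∈ W, Light F w) :
    (((F ∩ II x W).card : ℕ) : ℝ) ≤ W.card * (Real.log (Fintype.card V) / 1000) := by
  have h1 : F ∩ II x W ⊆ W.biUnion (fun w => (nb (gr F) univ w).image (fun z => s(w, z))) := by
    intro e he
    rw [mem_inter] at he
    obtain ⟨heF, he⟩ := he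
    unfold II at he
    rw [mem_image] at he
    obtain ⟨⟨a, b⟩, hab, rfl⟩ := he
    rw [Finset.mem_product] at hab
    rw [mem_biUnion]
    refine ⟨a, hab.1, ?_⟩
    rw [mem_image]
    refine ⟨b, ?_, rfl⟩
    rw [mem_nb]
    exact ⟨mem_univ _, (adj_pairs hF a b).2 heF⟩
  have h2 : (F ∩ II x W).card ≤ ∑ w ∈ W, dg F w := by
    refine (card_le_card h1).trans (card_biUnion_le.trans ?_)
    exact sum_le_sum fun w _ => card_image_le
  calc (((F ∩ II x W).card : ℕ) : ℝ) ≤ ((∑ w ∈ W, dg F w : ℕ) : ℝ) := by exact_mod_cast h2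
    _ = ∑ w ∈ W, (dg F w : ℝ) := by push_cast; rfl
    _ ≤ ∑ _w ∈ W, Real.log (Fintype.card V) / 1000 := sum_le_sum fun w hw => (hL w hw).le
    _ = W.card * (Real.log (Fintype.card V) / 1000) := by rw [sum_const, nsmul_eq_mul]

/-- the event for `(x, W)` -/
theorem exists_W (F : Finset (Sym2 V)) (hF : F ⊆ pairs V) (x : V) (h : 200 ≤ lnb F x) :
    ∃ W : Finset V, W.card = 200 ∧ x ∉ W ∧ AA x W ⊆ F ∧
      (((F ∩ II x W).card : ℕ) : ℝ) ≤ Real.log (Fintype.card V) / 5 := by
  classical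
  unfold lnb at h
  obtain ⟨W, hW, hc⟩ := exists_subset_card_eq h
  have hW' : ∀ w ∈ W, (gr F).Adj x w ∧ Light F w := fun w hw => (mem_filter.1 (hW hw)).2
  refine ⟨W, hc, ?_, ?_, ?_⟩
  · intro hx
    exact (gr F).irrefl (hW' x hx).1
  · intro e he
    unfold AA at he
    rw [mem_image] at he
    obtain ⟨w, hw, rfl⟩ := he
    exact (adj_pairs hF x w).1 (hW' w hw).1
  · have := card_FI F hF x W fun w hw => (hW' w hw).2
    rw [hc] at this
    refine this.trans (le_of_eq ?_)
    push_cast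
    ring

theorem main_bound (hJ : JOINT) (n : ℕ) (hn : Fintype.card V = n) (h201 : 201 ≤ n) (p : ℝ)
    (hp0 : 0 ≤ p) (hp1 : p ≤ 1) :
    P (V := V) p (fun F => ∃ x, 200 ≤ lnb F x) ≤
      (n : ℝ) ^ 201 * (p ^ 200 * Real.exp (Real.log n / 5 - 3 / 5 * p * (200 * ((n : ℝ) - 201)))) := by
  classical
  set I0 : Finset (V × Finset V) :=
    (univ ×ˢ (powersetCard 200 (univ : Finset V))).filter (fun q => q.1 ∉ q.2) with hI0
  have h1 : P (V := V) p (fun F => ∃ x, 200 ≤ lnb F x) ≤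
      P (V := V) p (fun F => ∃ q ∈ I0, (AA q.1 q.2 ⊆ F ∧
        (((F ∩ II q.1 q.2).card : ℕ) : ℝ) ≤ Real.log n / 5)) := by
    unfold P
    refine pr_mono (fun _ => hp0) (fun _ => hp1) fun F hF h => ?_
    obtain ⟨x, hx⟩ := h
    obtain ⟨W, hc, hxW, hA, hI⟩ := exists_W F hF x hx
    refine ⟨(x, W), ?_, hA, ?_⟩
    · rw [hI0, mem_filter, mem_product, mem_powersetCard]
      exact ⟨⟨mem_univ _, subset_univ _, hc⟩, hxW⟩
    · rw [hn] at hI
      exact hI
  have h2 : P (V := V) p (fun F => ∃ q ∈ I0, (AA q.1 q.2 ⊆ F ∧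
        (((F ∩ II q.1 q.2).card : ℕ) : ℝ) ≤ Real.log n / 5)) ≤
      ∑ q ∈ I0, p ^ 200 * Real.exp (Real.log n / 5 - 3 / 5 * p * (200 * ((n : ℝ) - 201))) := by
    unfold P
    refine (pr_ex (fun _ => hp0) (fun _ => hp1) (pairs V) I0 (fun q F => (AA q.1 q.2 ⊆ F ∧
        (((F ∩ II q.1 q.2).card : ℕ) : ℝ) ≤ Real.log n / 5))).trans (sum_le_sum fun q hq => ?_)
    rw [hI0, mem_filter, mem_product, mem_powersetCard] at hq
    obtain ⟨⟨-, -, hc⟩, hx⟩ := hq
    have h3 := hJ V p (Real.log n / 5) (AA q.1 q.2) (II q.1 q.2) hp0 hp1 (AA_sub _ _ hx)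
      (II_sub _ _) (disj_AI _ _ hx)
    unfold P at h3
    rw [card_AA, card_II _ _ hx, hc, hn] at h3
    have h4 : (((200 * (n - (200 + 1)) : ℕ)) : ℝ) = 200 * ((n : ℝ) - 201) := by
      rw [Nat.cast_mul, Nat.cast_sub (by omega)]
      norm_num
    rw [h4] at h3
    exact h3
  have h3 : (I0.card : ℝ) ≤ (n : ℝ) ^ 201 := by
    have h4 : I0.card ≤ n * n.choose 200 := by
      refine (card_filter_le _ _).trans (le_of_eq ?_)
      rw [card_product, card_univ, card_powersetCard, card_univ, hn]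
    have h6 : ((n * n.choose 200 : ℕ) : ℝ) ≤ ((n ^ (200 + 1) : ℕ) : ℝ) :=
      Nat.cast_le.2 (count n 200)
    rw [Nat.cast_pow] at h6
    exact (Nat.cast_le.2 h4).trans h6
  refine h1.trans (h2.trans ?_)
  rw [sum_const, nsmul_eq_mul]
  exact mul_le_mul_of_nonneg_right h3 (mul_nonneg (pow_nonneg hp0 _) (Real.exp_pos _).le)

end

/-- the numerical part -/
theorem num : ∀ᶠ n : ℕ in atTop, 201 ≤ n ∧ 9648000 ≤ n ∧ 400 * Real.log n ≤ n ∧
    (400 * Real.log n) ^ 200 ≤ Real.exp (4 * Real.log n) := by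
  have hlog : Tendsto (fun n : ℕ => Real.log n) atTop atTop :=
    Real.tendsto_log_atTop.comp tendsto_natCast_atTop_atTop
  have h1 : ∀ᶠ x : ℝ in atTop, (400 * x) ^ 200 ≤ Real.exp (4 * x) := by
    have h2 := (Real.tendsto_exp_div_pow_atTop 200).eventually_ge_atTop ((400 : ℝ) ^ 200)
    filter_upwards [h2, eventually_gt_atTop (0 : ℝ)] with x hx hx0
    rw [le_div_iff₀ (pow_pos hx0 _)] at hx
    rw [mul_pow]
    refine hx.trans (Real.exp_le_exp.2 (by linarith))
  have h3 : ∀ᶠ x : ℝ in atTop, 400 * x ≤ Real.exp x := by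
    have h2 := (Real.tendsto_exp_div_pow_atTop 1).eventually_ge_atTop (400 : ℝ)
    filter_upwards [h2, eventually_gt_atTop (0 : ℝ)] with x hx hx0
    rw [le_div_iff₀ (pow_pos hx0 _), pow_one] at hx
    exact hx
  filter_upwards [hlog.eventually h1, hlog.eventually h3, eventually_ge_atTop 201,
    eventually_ge_atTop 9648000] with n a b c d
  have hn0 : (0 : ℝ) < n := by exact_mod_cast (by omega : 0 < n)
  rw [Real.exp_log hn0] at b
  exact ⟨c, d, b, a⟩

theorem t_STAR (hJ : JOINT) : Pool.Agent.Run7.h202.RP.STAR := by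
  filter_upwards [num] with n hn V _ _ p hV hR
  obtain ⟨h201, hbig, h400, hpow⟩ := hn
  obtain ⟨hR1, hR2⟩ := hR
  have hn0 : (0 : ℝ) < n := by exact_mod_cast (by omega : 0 < n)
  have hnR : (9648000 : ℝ) ≤ n := by exact_mod_cast hbig
  have hL0 : 0 ≤ Real.log n := Real.log_natCast_nonneg n
  have hp0 : 0 ≤ p := le_trans (by positivity) hR1
  have hp1 : p ≤ 1 := hR2.trans (by rw [div_le_one hn0]; exact h400)
  refine (main_bound hJ n hV h201 p hp0 hp1).trans ?_
  have hnp : (n : ℝ) * p ≤ 400 * Real.log n := by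
    rw [le_div_iff₀ hn0] at hR2
    linarith
  have hnp0 : 0 ≤ (n : ℝ) * p := by positivity
  have e1 : (n : ℝ) ^ 201 * (p ^ 200 * Real.exp (Real.log n / 5 -
      3 / 5 * p * (200 * ((n : ℝ) - 201)))) =
      n * ((n : ℝ) * p) ^ 200 * Real.exp (Real.log n / 5 - 3 / 5 * p * (200 * ((n : ℝ) - 201))) := by
    rw [mul_pow]
    ring
  rw [e1]
  have h1 : ((n : ℝ) * p) ^ 200 ≤ Real.exp (4 * Real.log n) :=
    (pow_le_pow_left₀ hnp0 hnp 200).trans hpow
  have h2 : Real.log n / 5 - 3 / 5 * p * (200 * ((n : ℝ) - 201)) ≤ -(13 * Real.log n) := by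
    have h3 : Real.log n ≤ 8 * ((n : ℝ) * p) := by
      rw [div_le_iff₀ (by positivity)] at hR1
      linarith
    have h4 : 24120 * p ≤ Real.log n := by
      have h5 : 9648000 * p ≤ 400 * Real.log n :=
        (mul_le_mul_of_nonneg_right hnR hp0).trans hnp
      linarith
    nlinarith
  have h3 : (n : ℝ) = Real.exp (Real.log n) := (Real.exp_log hn0).symm
  calc n * ((n : ℝ) * p) ^ 200 * Real.exp (Real.log n / 5 - 3 / 5 * p * (200 * ((n : ℝ) - 201)))
      ≤ n * Real.exp (4 * Real.log n) * Real.exp (-(13 * Real.log n)) := by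
        apply mul_le_mul _ (Real.exp_le_exp.2 h2) (Real.exp_pos _).le (by positivity)
        exact mul_le_mul_of_nonneg_left h1 hn0.le
    _ = Real.exp (-(8 * Real.log n)) := by
        nth_rewrite 1 [h3]
        rw [← Real.exp_add, ← Real.exp_add]
        congr 1
        ring
    _ = 1 / (n : ℝ) ^ 8 := by
        rw [Real.exp_neg, one_div]
        congr 1
        have := Real.exp_nat_mul (Real.log n) 8
        push_cast at this
        rw [this, Real.exp_log hn0]

end Pool.Agent.Run7.h569.RP
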